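import Pool.Agent.W837.GB.Defs

set_option autoImplicit false
set_option linter.unusedSectionVars false
open MeasureTheory ProbabilityTheory Filter Topology
open scoped NNReal ENNReal Matrix ComplexOrder
open Pool.Agent.W837.GB

namespace Pool.Agent.W368.GB

instance instProbGam (ι : Type) [Fintype ι] : IsProbabilityMeasure (gam ι) := by
  unfold gam; infer_instance

section
variable {ι : Type} [Fintype ι] [DecidableEq ι]

lemma fderiv_apply_sum (f : (ι → ℝ) → ℂ) (x v : ι → ℝ) :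
    fderiv ℝ f x v = ∑ k, (v k : ℂ) * fderiv ℝ f x (Pi.single k 1) := by
  have h1 : v = ∑ k, (v k) • (Pi.single k (1:ℝ) : ι → ℝ) := by
    funext i
    simp [Finset.sum_apply, Pi.single_apply]
  conv_lhs => rw [h1]
  rw [map_sum]
  refine Finset.sum_congr rfl fun k _ => ?_
  rw [map_smul]; rfl

lemma fderiv_sq_le (f : (ι → ℝ) → ℂ) (V : ℝ)
    (hV : ∀ x, ∑ k, ‖fderiv ℝ f x (Pi.single k 1)‖ ^ 2 ≤ V) (x v : ι → ℝ) :
    ‖fderiv ℝ f x v‖ ^ 2 ≤ V * ∑ k, (v k) ^ 2 := by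
  rw [fderiv_apply_sum]
  calc ‖∑ k, (v k : ℂ) * fderiv ℝ f x (Pi.single k 1)‖ ^ 2
      ≤ (∑ k, |v k| * ‖fderiv ℝ f x (Pi.single k 1)‖) ^ 2 := by
        gcongr
        refine (norm_sum_le _ _).trans (le_of_eq ?_)
        refine Finset.sum_congr rfl fun k _ => ?_
        rw [norm_mul, Complex.norm_real, Real.norm_eq_abs]
    _ ≤ (∑ k, |v k| ^ 2) * (∑ k, ‖fderiv ℝ f x (Pi.single k 1)‖ ^ 2) :=
        Finset.sum_mul_sq_le_sq_mul_sq _ _ _
    _ ≤ (∑ k, |v k| ^ 2) * V := by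
        gcongr
        exact hV x
    _ = V * ∑ k, (v k) ^ 2 := by
        rw [mul_comm]; congr 1
        exact Finset.sum_congr rfl fun k _ => sq_abs _

lemma exists_lip (f : (ι → ℝ) → ℂ) (V : ℝ) (hf : ContDiff ℝ 1 f)
    (hV : ∀ x, ∑ k, ‖fderiv ℝ f x (Pi.single k 1)‖ ^ 2 ≤ V) : ∃ L : ℝ≥0, LipschitzWith L f := by
  have hV0 : 0 ≤ V := le_trans (Finset.sum_nonneg fun k _ => by positivity) (hV 0)
  refine ⟨Real.toNNReal (Real.sqrt (V * Fintype.card ι)), ?_⟩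
  apply lipschitzWith_of_nnnorm_fderiv_le (𝕜 := ℝ) (hf.differentiable (by norm_num))
  intro x
  rw [← NNReal.coe_le_coe, coe_nnnorm, Real.coe_toNNReal _ (Real.sqrt_nonneg _)]
  refine ContinuousLinearMap.opNorm_le_bound _ (Real.sqrt_nonneg _) fun v => ?_
  have h1 := fderiv_sq_le f V hV x v
  have h2 : ∑ k, (v k) ^ 2 ≤ Fintype.card ι * ‖v‖ ^ 2 := by
    calc ∑ k, (v k) ^ 2 ≤ ∑ k : ι, ‖v‖ ^ 2 := by
          refine Finset.sum_le_sum fun k _ => ?_
          rw [← sq_abs]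
          gcongr
          exact norm_le_pi_norm v k
      _ = Fintype.card ι * ‖v‖ ^ 2 := by simp
  have h3 : ‖fderiv ℝ f x v‖ ^ 2 ≤ (Real.sqrt (V * Fintype.card ι) * ‖v‖) ^ 2 := by
    rw [mul_pow, Real.sq_sqrt (by positivity)]
    calc _ ≤ V * ∑ k, (v k) ^ 2 := h1
      _ ≤ V * (Fintype.card ι * ‖v‖ ^ 2) := by gcongr
      _ = _ := by ring
  exact le_of_sq_le_sq h3 (by positivity)

lemma memLp_coord (p : ℝ≥0∞) (hp : p ≠ ⊤) (k : ι) : MemLp (fun x : ι → ℝ => x k) p (gam ι) := by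
  have h1 : MeasurePreserving (Function.eval k) (gam ι) (gaussianReal 0 1) :=
    measurePreserving_eval (fun _ : ι => gaussianReal 0 1) k
  have h2 : MemLp id p (gaussianReal 0 1) := by
    have := memLp_id_gaussianReal (μ := 0) (v := 1) p.toNNReal
    rwa [ENNReal.coe_toNNReal hp] at this
  exact h2.comp_measurePreserving h1

lemma memLp_two_of_lip (f : (ι → ℝ) → ℂ) (L : ℝ≥0) (h : LipschitzWith L f) :
    MemLp f 2 (gam ι) := by
  have h00 : ∀ k : ι, MemLp (fun x : ι → ℝ => |x k|) 2 (gam ι) := fun k =>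
    (memLp_coord 2 (by norm_num) k).norm
  have h01 : MemLp (fun x : ι → ℝ => ∑ k, |x k|) 2 (gam ι) :=
    memLp_finsetSum _ fun k _ => h00 k
  have h02 : MemLp (fun x : ι → ℝ => (L : ℝ) * ∑ k, |x k|) 2 (gam ι) := h01.const_mul (L : ℝ)
  have h03 : MemLp (fun _ : ι → ℝ => ‖f 0‖) 2 (gam ι) := memLp_const _
  have h1 : MemLp (fun x : ι → ℝ => ‖f 0‖ + L * ∑ k, |x k|) 2 (gam ι) := h03.add h02
  refine MemLp.mono' h1 h.continuous.aestronglyMeasurable (ae_of_all _ fun x => ?_)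
  have h2 : ‖f x - f 0‖ ≤ L * ‖x - 0‖ := h.norm_sub_le x 0
  rw [sub_zero] at h2
  have h3 : ‖x‖ ≤ ∑ k, |x k| := by
    refine (pi_norm_le_iff_of_nonneg (Finset.sum_nonneg fun k _ => abs_nonneg _)).2 fun k => ?_
    rw [Real.norm_eq_abs]
    exact Finset.single_le_sum (f := fun k => |x k|) (fun k _ => abs_nonneg _) (Finset.mem_univ k)
  calc ‖f x‖ = ‖f 0 + (f x - f 0)‖ := by congr 1; ring
    _ ≤ ‖f 0‖ + ‖f x - f 0‖ := norm_add_le _ _
    _ ≤ ‖f 0‖ + L * ‖x‖ := by gcongr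
    _ ≤ _ := by gcongr

lemma integral_coord_mul (k l : ι) :
    ∫ x, x k * x l ∂(gam ι) = if k = l then 1 else 0 := by
  have hmp : ∀ k : ι, MeasurePreserving (Function.eval k) (gam ι) (gaussianReal 0 1) :=
    fun k => measurePreserving_eval (fun _ : ι => gaussianReal 0 1) k
  split_ifs with h
  · subst h
    have h1 : ∫ x, x k * x k ∂(gam ι) = ∫ y, y * y ∂(gaussianReal 0 1) := by
      rw [← (hmp k).map_eq, integral_map (f := fun y : ℝ => y * y) (hmp k).measurable.aemeasurable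
        (continuous_id.mul continuous_id).aestronglyMeasurable]
    rw [h1]
    have h2 := variance_id_gaussianReal (μ := 0) (v := 1)
    rw [variance_eq_integral aemeasurable_id] at h2
    simp only [id, integral_id_gaussianReal, sub_zero] at h2
    simpa [sq] using h2
  · have hind : iIndepFun (fun (i : ι) (x : ι → ℝ) => x i) (gam ι) := by
      have := iIndepFun_pi (μ := fun _ : ι => gaussianReal 0 1) (X := fun _ : ι => (id : ℝ → ℝ))
        (fun _ => aemeasurable_id)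
      exact this
    have h1 := (hind.indepFun h).integral_mul_eq_mul_integral
      (continuous_apply k).aestronglyMeasurable (continuous_apply l).aestronglyMeasurable
    have h2 : ∫ x : ι → ℝ, x k ∂(gam ι) = 0 := by
      have : ∫ x, x k ∂(gam ι) = ∫ y, y ∂(gaussianReal 0 1) := by
        rw [← (hmp k).map_eq, integral_map (f := fun y : ℝ => y) (hmp k).measurable.aemeasurable
          continuous_id.aestronglyMeasurable]
      rw [this, integral_id_gaussianReal]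
    have h3 : ∫ x, x k * x l ∂(gam ι) = ∫ x, ((fun x : ι → ℝ => x k) * (fun x : ι → ℝ => x l)) x ∂(gam ι) := rfl
    rw [h3, h1, h2, zero_mul]

lemma integrable_coord_mul (k l : ι) : Integrable (fun x : ι → ℝ => x k * x l) (gam ι) :=
  (memLp_coord 2 (by norm_num) k).integrable_mul (memLp_coord 2 (by norm_num) l)

/-- second moment of a real linear form -/
lemma integral_lin_sq (a : ι → ℝ) :
    Integrable (fun x : ι → ℝ => (∑ k, a k * x k) ^ 2) (gam ι) ∧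
    ∫ x, (∑ k, a k * x k) ^ 2 ∂(gam ι) = ∑ k, (a k) ^ 2 := by
  have h1 : (fun x : ι → ℝ => (∑ k, a k * x k) ^ 2) =
      fun x => ∑ k, ∑ l, (a k * a l) * (x k * x l) := by
    funext x
    rw [sq, Finset.sum_mul_sum]
    refine Finset.sum_congr rfl fun k _ => Finset.sum_congr rfl fun l _ => by ring
  have hi : ∀ k l, Integrable (fun x : ι → ℝ => (a k * a l) * (x k * x l)) (gam ι) :=
    fun k l => (integrable_coord_mul k l).const_mul _
  rw [h1]
  refine ⟨integrable_finsetSum _ fun k _ => integrable_finsetSum _ fun l _ => hi k l, ?_⟩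
  rw [integral_finsetSum _ fun k _ => integrable_finsetSum _ fun l _ => hi k l]
  refine Finset.sum_congr rfl fun k _ => ?_
  rw [integral_finsetSum _ fun l _ => hi k l]
  simp_rw [integral_const_mul, integral_coord_mul]
  simp [sq]

/-- second moment of a complex linear form -/
lemma integral_clin_sq (c : ι → ℂ) :
    Integrable (fun x : ι → ℝ => ‖∑ k, (x k : ℂ) * c k‖ ^ 2) (gam ι) ∧
    ∫ x, ‖∑ k, (x k : ℂ) * c k‖ ^ 2 ∂(gam ι) = ∑ k, ‖c k‖ ^ 2 := by
  have h1 : (fun x : ι → ℝ => ‖∑ k, (x k : ℂ) * c k‖ ^ 2) =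
      fun x => (∑ k, (c k).re * x k) ^ 2 + (∑ k, (c k).im * x k) ^ 2 := by
    funext x
    rw [← Complex.normSq_eq_norm_sq, Complex.normSq_apply]
    simp only [Complex.re_sum, Complex.im_sum, Complex.re_ofReal_mul, Complex.im_ofReal_mul]
    rw [← sq, ← sq]
    congr 2 <;> exact Finset.sum_congr rfl fun k _ => mul_comm _ _
  rw [h1]
  obtain ⟨i1, e1⟩ := integral_lin_sq fun k => (c k).re
  obtain ⟨i2, e2⟩ := integral_lin_sq fun k => (c k).im
  refine ⟨i1.add i2, ?_⟩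
  rw [integral_add i1 i2, e1, e2, ← Finset.sum_add_distrib]
  refine Finset.sum_congr rfl fun k _ => ?_
  rw [← Complex.normSq_eq_norm_sq, Complex.normSq_apply]; ring

/-- the rotated pair -/
noncomputable def rt1 (t : ℝ) (p : (ι → ℝ) × (ι → ℝ)) : ι → ℝ :=
  fun i => Real.cos t * p.1 i + Real.sin t * p.2 i

noncomputable def rt2 (t : ℝ) (p : (ι → ℝ) × (ι → ℝ)) : ι → ℝ :=
  fun i => -Real.sin t * p.1 i + Real.cos t * p.2 i

lemma cont_rt1 : Continuous (fun q : ℝ × ((ι → ℝ) × (ι → ℝ)) => rt1 q.1 q.2) := by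
  unfold rt1
  fun_prop

lemma cont_rt2 : Continuous (fun q : ℝ × ((ι → ℝ) × (ι → ℝ)) => rt2 q.1 q.2) := by
  unfold rt2
  fun_prop

lemma hasDerivAt_rt1 (t : ℝ) (p : (ι → ℝ) × (ι → ℝ)) :
    HasDerivAt (fun t => rt1 t p) (rt2 t p) t := by
  refine hasDerivAt_pi.2 fun i => ?_
  unfold rt1 rt2
  exact ((Real.hasDerivAt_cos t).mul_const _).add ((Real.hasDerivAt_sin t).mul_const _)

lemma cont_F (f : (ι → ℝ) → ℂ) (hf : ContDiff ℝ 1 f) :
    Continuous (fun q : ℝ × ((ι → ℝ) × (ι → ℝ)) => fderiv ℝ f (rt1 q.1 q.2) (rt2 q.1 q.2)) := by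
  have h1 : Continuous (fderiv ℝ f) := hf.continuous_fderiv (by norm_num)
  exact (h1.comp cont_rt1).clm_apply cont_rt2

/-- Cauchy-Schwarz on an interval -/
lemma sq_integral_le (u : ℝ → ℝ) (hu : Continuous u) (a : ℝ) (ha : 0 < a) :
    (∫ t in (0:ℝ)..a, u t) ^ 2 ≤ a * ∫ t in (0:ℝ)..a, (u t) ^ 2 := by
  set m := (∫ t in (0:ℝ)..a, u t) / a with hm
  have h0 : 0 ≤ ∫ t in (0:ℝ)..a, (u t - m) ^ 2 :=
    intervalIntegral.integral_nonneg ha.le fun t _ => by positivity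
  have h1 : ∫ t in (0:ℝ)..a, (u t - m) ^ 2 =
      (∫ t in (0:ℝ)..a, (u t) ^ 2) - 2 * m * (∫ t in (0:ℝ)..a, u t) + a * m ^ 2 := by
    have : ∀ t, (u t - m) ^ 2 = (u t) ^ 2 - (2 * m) * u t + m ^ 2 := fun t => by ring
    simp_rw [this]
    rw [intervalIntegral.integral_add, intervalIntegral.integral_sub,
      intervalIntegral.integral_const_mul, intervalIntegral.integral_const]
    · simp
    · exact (hu.pow 2).intervalIntegrable _ _
    · exact (continuous_const.mul hu).intervalIntegrable _ _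
    · exact ((hu.pow 2).sub (continuous_const.mul hu)).intervalIntegrable _ _
    · exact continuous_const.intervalIntegrable _ _
  rw [h1] at h0
  have h2 : (∫ t in (0:ℝ)..a, u t) = a * m := by rw [hm]; field_simp
  rw [h2] at h0 ⊢
  nlinarith [mul_nonneg ha.le h0]

lemma hd_aux (f : (ι → ℝ) → ℂ) (hf : ContDiff ℝ 1 f) (p : (ι → ℝ) × (ι → ℝ)) :
    ∀ t : ℝ, HasDerivAt (fun t => f (rt1 t p)) (fderiv ℝ f (rt1 t p) (rt2 t p)) t := by
  intro t
  have e1 : HasFDerivAt f (fderiv ℝ f (rt1 t p)) (rt1 t p) :=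
    (hf.differentiable (by norm_num)).differentiableAt.hasFDerivAt
  exact e1.comp_hasDerivAt t (hasDerivAt_rt1 t p)

lemma cF_aux (f : (ι → ℝ) → ℂ) (hf : ContDiff ℝ 1 f) (p : (ι → ℝ) × (ι → ℝ)) :
    Continuous fun t => fderiv ℝ f (rt1 t p) (rt2 t p) := by
  have h1 : Continuous (fun t : ℝ => ((t, p) : ℝ × ((ι → ℝ) × (ι → ℝ)))) := by fun_prop
  have h2 := (cont_F f hf).comp h1
  simpa only [Function.comp_def] using h2

lemma ftc_aux (f : (ι → ℝ) → ℂ) (hf : ContDiff ℝ 1 f) (p : (ι → ℝ) × (ι → ℝ)) :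
    ∫ t in (0:ℝ)..(Real.pi / 2), fderiv ℝ f (rt1 t p) (rt2 t p) = f p.2 - f p.1 := by
  have e1 : rt1 (Real.pi / 2) p = p.2 := by funext i; simp [rt1]
  have e0 : rt1 0 p = p.1 := by funext i; simp [rt1]
  have e2 := intervalIntegral.integral_eq_sub_of_hasDerivAt (fun t _ => hd_aux f hf p t)
    ((cF_aux f hf p).intervalIntegrable 0 (Real.pi / 2))
  rw [e2, e1, e0]

lemma sq_aux (f : (ι → ℝ) → ℂ) (hf : ContDiff ℝ 1 f) (p : (ι → ℝ) × (ι → ℝ)) :
    ‖f p.2 - f p.1‖ ^ 2 ≤ (Real.pi / 2) *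
      ∫ t in (0:ℝ)..(Real.pi / 2), ‖fderiv ℝ f (rt1 t p) (rt2 t p)‖ ^ 2 := by
  have hpi : 0 < Real.pi / 2 := by positivity
  have e1 := sq_integral_le (fun t => ‖fderiv ℝ f (rt1 t p) (rt2 t p)‖) (cF_aux f hf p).norm
    (Real.pi / 2) hpi
  have e2 : ‖∫ t in (0:ℝ)..(Real.pi / 2), fderiv ℝ f (rt1 t p) (rt2 t p)‖ ≤
      ∫ t in (0:ℝ)..(Real.pi / 2), ‖fderiv ℝ f (rt1 t p) (rt2 t p)‖ :=
    intervalIntegral.norm_integral_le_integral_norm hpi.le
  rw [ftc_aux f hf p] at e2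
  exact (pow_le_pow_left₀ (norm_nonneg _) e2 2).trans e1

lemma li_aux (u : ℝ → ℝ) (hu : Continuous u) (hu0 : ∀ t, 0 ≤ u t) (a : ℝ) (ha : 0 ≤ a) :
    ENNReal.ofReal (∫ t in (0:ℝ)..a, u t) = ∫⁻ t in Set.Ioc 0 a, ENNReal.ofReal (u t) := by
  have hi : Integrable u (volume.restrict (Set.Ioc 0 a)) := by
    have := hu.integrableOn_Icc (a := 0) (b := a) (μ := volume)
    exact this.mono_set Set.Ioc_subset_Icc_self
  rw [intervalIntegral.integral_of_le ha]
  exact ofReal_integral_eq_lintegral_ofReal hi (ae_of_all _ hu0)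

lemma pointwise_bound (f : (ι → ℝ) → ℂ) (hf : ContDiff ℝ 1 f) (p : (ι → ℝ) × (ι → ℝ)) :
    ENNReal.ofReal (‖f p.2 - f p.1‖ ^ 2) ≤ ENNReal.ofReal (Real.pi / 2) *
      ∫⁻ t in Set.Ioc 0 (Real.pi / 2),
        ENNReal.ofReal (‖fderiv ℝ f (rt1 t p) (rt2 t p)‖ ^ 2) := by
  have hpi : 0 ≤ Real.pi / 2 := by positivity
  have h3 := li_aux (fun t => ‖fderiv ℝ f (rt1 t p) (rt2 t p)‖ ^ 2)
    ((cF_aux f hf p).norm.pow 2) (fun t => sq_nonneg _) (Real.pi / 2) hpi
  rw [← h3, ← ENNReal.ofReal_mul hpi]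
  exact ENNReal.ofReal_le_ofReal (sq_aux f hf p)

lemma inner_bound (f : (ι → ℝ) → ℂ) (V : ℝ) (hf : ContDiff ℝ 1 f)
    (hV : ∀ x, ∑ k, ‖fderiv ℝ f x (Pi.single k 1)‖ ^ 2 ≤ V) :
    ∫⁻ p, ENNReal.ofReal (‖fderiv ℝ f p.1 p.2‖ ^ 2) ∂((gam ι).prod (gam ι)) ≤
      ENNReal.ofReal V := by
  have h1 : Continuous (fderiv ℝ f) := hf.continuous_fderiv (by norm_num)
  have hc : Continuous fun p : (ι → ℝ) × (ι → ℝ) => fderiv ℝ f p.1 p.2 :=
    (h1.comp continuous_fst).clm_apply continuous_snd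
  rw [lintegral_prod _ (by exact (ENNReal.continuous_ofReal.comp (hc.norm.pow 2)).aemeasurable)]
  calc ∫⁻ x, ∫⁻ y, ENNReal.ofReal (‖fderiv ℝ f x y‖ ^ 2) ∂(gam ι) ∂(gam ι)
      ≤ ∫⁻ x, ENNReal.ofReal V ∂(gam ι) := by
        refine lintegral_mono fun x => ?_
        have h2 : (fun y : ι → ℝ => ENNReal.ofReal (‖fderiv ℝ f x y‖ ^ 2)) = fun y =>
            ENNReal.ofReal (‖∑ k, (y k : ℂ) * fderiv ℝ f x (Pi.single k 1)‖ ^ 2) := by
          funext y
          rw [fderiv_apply_sum]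
        obtain ⟨i, e⟩ := integral_clin_sq fun k => fderiv ℝ f x (Pi.single k 1)
        rw [h2, ← ofReal_integral_eq_lintegral_ofReal i (ae_of_all _ fun t => by positivity), e]
        exact ENNReal.ofReal_le_ofReal (hV x)
    _ = ENNReal.ofReal V := by simp

lemma double_bound (h : S_ROT) (f : (ι → ℝ) → ℂ) (V : ℝ) (hf : ContDiff ℝ 1 f)
    (hV : ∀ x, ∑ k, ‖fderiv ℝ f x (Pi.single k 1)‖ ^ 2 ≤ V) :
    ∫⁻ p, ENNReal.ofReal (‖f p.2 - f p.1‖ ^ 2) ∂((gam ι).prod (gam ι)) ≤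
      ENNReal.ofReal (4 * V) := by
  have hV0 : 0 ≤ V := le_trans (Finset.sum_nonneg fun k _ => by positivity) (hV 0)
  have h1 : Continuous (fderiv ℝ f) := hf.continuous_fderiv (by norm_num)
  have hc : Continuous fun p : (ι → ℝ) × (ι → ℝ) => fderiv ℝ f p.1 p.2 :=
    (h1.comp continuous_fst).clm_apply continuous_snd
  have hm : Measurable fun p : (ι → ℝ) × (ι → ℝ) =>
      ENNReal.ofReal (‖fderiv ℝ f p.1 p.2‖ ^ 2) :=
    (ENNReal.continuous_ofReal.comp (hc.norm.pow 2)).measurable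
  have hF : Measurable (fun q : ((ι → ℝ) × (ι → ℝ)) × ℝ =>
      ENNReal.ofReal (‖fderiv ℝ f (rt1 q.2 q.1) (rt2 q.2 q.1)‖ ^ 2)) :=
    (ENNReal.continuous_ofReal.comp (((cont_F f hf).comp continuous_swap).norm.pow 2)).measurable
  calc ∫⁻ p, ENNReal.ofReal (‖f p.2 - f p.1‖ ^ 2) ∂((gam ι).prod (gam ι))
      ≤ ∫⁻ p, ENNReal.ofReal (Real.pi / 2) * (∫⁻ t in Set.Ioc 0 (Real.pi / 2),
        ENNReal.ofReal (‖fderiv ℝ f (rt1 t p) (rt2 t p)‖ ^ 2)) ∂((gam ι).prod (gam ι)) :=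
        lintegral_mono fun p => pointwise_bound f hf p
    _ = ENNReal.ofReal (Real.pi / 2) * ∫⁻ p, (∫⁻ t in Set.Ioc 0 (Real.pi / 2),
        ENNReal.ofReal (‖fderiv ℝ f (rt1 t p) (rt2 t p)‖ ^ 2)) ∂((gam ι).prod (gam ι)) := by
        rw [lintegral_const_mul']
        exact ENNReal.ofReal_ne_top
    _ = ENNReal.ofReal (Real.pi / 2) * ∫⁻ t in Set.Ioc 0 (Real.pi / 2), (∫⁻ p,
        ENNReal.ofReal (‖fderiv ℝ f (rt1 t p) (rt2 t p)‖ ^ 2) ∂((gam ι).prod (gam ι))) := by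
        rw [lintegral_lintegral_swap]
        exact hF.aemeasurable
    _ = ENNReal.ofReal (Real.pi / 2) * ∫⁻ t in Set.Ioc 0 (Real.pi / 2), (∫⁻ p,
        ENNReal.ofReal (‖fderiv ℝ f p.1 p.2‖ ^ 2) ∂((gam ι).prod (gam ι))) := by
        congr 1
        refine lintegral_congr fun t => ?_
        exact (h ι t).lintegral_comp hm
    _ ≤ ENNReal.ofReal (Real.pi / 2) * ∫⁻ t in Set.Ioc 0 (Real.pi / 2), ENNReal.ofReal V := by
        gcongr
        exact inner_bound f V hf hV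
    _ = ENNReal.ofReal (Real.pi / 2 * (V * (Real.pi / 2))) := by
        rw [setLIntegral_const, Real.volume_Ioc, sub_zero, ← ENNReal.ofReal_mul hV0,
          ← ENNReal.ofReal_mul (by positivity)]
    _ ≤ ENNReal.ofReal (4 * V) := by
        refine ENNReal.ofReal_le_ofReal ?_
        have : Real.pi ≤ 4 := Real.pi_le_four
        have h0 : 0 < Real.pi := Real.pi_pos
        nlinarith [mul_nonneg hV0 (mul_nonneg h0.le (sub_nonneg.2 this)),
          mul_nonneg hV0 (sub_nonneg.2 this)]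

end

theorem var (h : S_ROT) : S_VAR := by
  intro ι _ _ f V hf hV
  have hV0 : 0 ≤ V := le_trans (Finset.sum_nonneg fun k _ => by positivity) (hV 0)
  obtain ⟨L, hL⟩ := exists_lip f V hf hV
  have hmem : MemLp f 2 (gam ι) := memLp_two_of_lip f L hL
  have hint : Integrable f (gam ι) := hmem.integrable (by norm_num)
  set e := ∫ y, f y ∂(gam ι) with he
  have hg : MemLp (fun x => f x - e) 2 (gam ι) := hmem.sub (memLp_const e)
  have hgi : Integrable (fun x => f x - e) (gam ι) := hg.integrable (by norm_num)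
  have hg2 : Integrable (fun x => ‖f x - e‖ ^ 2) (gam ι) := by
    exact hg.integrable_norm_pow (by norm_num)
  refine ⟨hint, hg2, ?_⟩
  have hg0 : ∫ x, (f x - e) ∂(gam ι) = 0 := by
    rw [integral_sub hint (integrable_const _)]
    simp [he]
  have hexp : ∀ p : (ι → ℝ) × (ι → ℝ), ‖f p.2 - f p.1‖ ^ 2 =
      (‖f p.1 - e‖ ^ 2 + ‖f p.2 - e‖ ^ 2) -
        2 * (((f p.1 - e) * (starRingEnd ℂ) (f p.2 - e)).re) := by
    intro p
    have h1 : f p.2 - f p.1 = (f p.2 - e) - (f p.1 - e) := by ring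
    rw [h1]
    generalize f p.2 - e = u
    generalize f p.1 - e = w
    simp only [← Complex.normSq_eq_norm_sq, Complex.normSq_apply, Complex.mul_re, Complex.sub_re,
      Complex.sub_im, Complex.conj_re, Complex.conj_im]
    ring
  have i1 : Integrable (fun p : (ι → ℝ) × (ι → ℝ) => ‖f p.1 - e‖ ^ 2)
      ((gam ι).prod (gam ι)) := hg2.comp_fst _
  have i2 : Integrable (fun p : (ι → ℝ) × (ι → ℝ) => ‖f p.2 - e‖ ^ 2)
      ((gam ι).prod (gam ι)) := hg2.comp_snd _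
  have hgc : Integrable (fun x => (starRingEnd ℂ) (f x - e)) (gam ι) := by
    exact (Complex.conjCLE.toContinuousLinearMap.integrable_comp hgi)
  have i3 : Integrable (fun p : (ι → ℝ) × (ι → ℝ) =>
      (f p.1 - e) * (starRingEnd ℂ) (f p.2 - e)) ((gam ι).prod (gam ι)) := hgi.mul_prod hgc
  have e3 : ∫ p, ((f p.1 - e) * (starRingEnd ℂ) (f p.2 - e)).re ∂((gam ι).prod (gam ι)) = 0 := by
    have h1 : ∫ p, ((f p.1 - e) * (starRingEnd ℂ) (f p.2 - e)) ∂((gam ι).prod (gam ι)) = 0 := by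
      rw [integral_prod_mul (f := fun x => f x - e) (g := fun x => (starRingEnd ℂ) (f x - e)),
        hg0, zero_mul]
    have h2 := integral_re i3
    simp only [RCLike.re_to_complex] at h2
    rw [h2, h1]; simp
  have hI : Integrable (fun p : (ι → ℝ) × (ι → ℝ) => ‖f p.2 - f p.1‖ ^ 2)
      ((gam ι).prod (gam ι)) := by
    simp_rw [hexp]
    exact (i1.add i2).sub (i3.re.const_mul 2)
  have hE : ∫ p, ‖f p.2 - f p.1‖ ^ 2 ∂((gam ι).prod (gam ι)) =
      2 * ∫ x, ‖f x - e‖ ^ 2 ∂(gam ι) := by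
    simp_rw [hexp]
    rw [integral_sub (by exact i1.add i2) (by exact i3.re.const_mul 2), integral_add i1 i2,
      integral_const_mul, e3, mul_zero, sub_zero]
    have a1 : ∫ p, ‖f p.1 - e‖ ^ 2 ∂((gam ι).prod (gam ι)) = ∫ x, ‖f x - e‖ ^ 2 ∂(gam ι) := by
      have := integral_fun_fst (μ := gam ι) (ν := gam ι) (fun x => ‖f x - e‖ ^ 2)
      simpa using this
    have a2 : ∫ p, ‖f p.2 - e‖ ^ 2 ∂((gam ι).prod (gam ι)) = ∫ x, ‖f x - e‖ ^ 2 ∂(gam ι) := by
      have := integral_fun_snd (μ := gam ι) (ν := gam ι) (fun x => ‖f x - e‖ ^ 2)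
      simpa using this
    rw [a1, a2]; ring
  have hle : ∫ p, ‖f p.2 - f p.1‖ ^ 2 ∂((gam ι).prod (gam ι)) ≤ 4 * V := by
    have h1 := double_bound h f V hf hV
    rw [← ofReal_integral_eq_lintegral_ofReal hI (ae_of_all _ fun t => by positivity)] at h1
    exact (ENNReal.ofReal_le_ofReal_iff (by positivity)).1 h1
  linarith

end Pool.Agent.W368.GB
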